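import Mathlib
import Pool.Agent.W79.ST.Defs

/-!
Project ST (MP_debc19_co), subtask ST-REPS: few isomorphism classes with a small automorphism
group.
-/

set_option autoImplicit false

namespace Pool.Agent.W706.ST.Reps

open Pool.Agent.W79.ST

open scoped Classical

/-- isomorphic graphs have automorphism groups of the same size -/
lemma card_aut_eq {V : Type} {G H : SimpleGraph V} (e : G ≃g H) :
    Nat.card (aut G) = Nat.card (aut H) := by
  refine Nat.card_congr ?_
  have h1 : ∀ u v, H.Adj (e u) (e v) ↔ G.Adj u v := fun u v => e.map_adj_iff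
  have h2 : ∀ u v, G.Adj (e.symm u) (e.symm v) ↔ H.Adj u v := fun u v => e.symm.map_adj_iff
  refine
    { toFun := fun σ => ⟨e.toEquiv.symm.trans (σ.1.trans e.toEquiv), ?_⟩
      invFun := fun σ => ⟨e.toEquiv.trans (σ.1.trans e.toEquiv.symm), ?_⟩
      left_inv := ?_
      right_inv := ?_ }
  · intro u v
    have := σ.2 (e.symm u) (e.symm v)
    exact (h1 _ _).trans (this.trans (h2 _ _))
  · intro u v
    have := σ.2 (e u) (e v)
    exact (h2 _ _).trans (this.trans (h1 _ _))
  · intro σ
    refine Subtype.ext (Equiv.ext fun x => ?_)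
    change e.symm (e (σ.1 (e.symm (e x)))) = σ.1 x
    rw [e.symm_apply_apply, e.symm_apply_apply]
  · intro σ
    refine Subtype.ext (Equiv.ext fun x => ?_)
    change e (e.symm (σ.1 (e (e.symm x)))) = σ.1 x
    rw [e.apply_symm_apply, e.apply_symm_apply]

/-- isomorphism as a setoid -/
def st (n : ℕ) : Setoid (SimpleGraph (Fin n)) where
  r G H := Nonempty (G ≃g H)
  iseqv :=
    { refl := fun _ => ⟨SimpleGraph.Iso.refl⟩
      symm := fun h => h.map fun e => e.symm
      trans := fun h k => h.elim fun e => k.elim fun f => ⟨f.comp e⟩ }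

/-- the representative of the class -/
noncomputable def rep {n : ℕ} (G : SimpleGraph (Fin n)) : SimpleGraph (Fin n) :=
  (Quotient.mk (st n) G).out

lemma rep_iso {n : ℕ} (G : SimpleGraph (Fin n)) : Nonempty (rep G ≃g G) :=
  Quotient.exact (s := st n) (Quotient.out_eq (Quotient.mk (st n) G))

lemma rep_eq {n : ℕ} {G H : SimpleGraph (Fin n)} (h : Nonempty (G ≃g H)) : rep G = rep H := by
  have : Quotient.mk (st n) G = Quotient.mk (st n) H := Quotient.sound (s := st n) h
  unfold rep
  rw [this]

lemma comap_iso {n : ℕ} (H : SimpleGraph (Fin n)) (s : Equiv.Perm (Fin n)) :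
    Nonempty (H.comap s ≃g H) :=
  ⟨{ toEquiv := s, map_rel_iff' := by intro a b; rfl }⟩

theorem main : S_REPS := by
  intro n Q K hQ
  let P : Finset (SimpleGraph (Fin n)) :=
    Finset.univ.filter fun G => Q G ∧ Nat.card (aut G) ≤ K
  let R : Finset (SimpleGraph (Fin n)) := P.image rep
  have hR : ∀ H ∈ R, Q H ∧ Nat.card (aut H) ≤ K ∧ rep H = H := by
    intro H hH
    obtain ⟨G, hG, rfl⟩ := Finset.mem_image.1 hH
    have hG' := (Finset.mem_filter.1 hG).2
    obtain ⟨e⟩ := rep_iso G
    refine ⟨hQ _ _ ⟨e.symm⟩ hG'.1, ?_, rep_eq ⟨e⟩⟩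
    rw [card_aut_eq e]
    exact hG'.2
  refine ⟨R, fun H hH => (hR H hH).1, ?_, ?_⟩
  · intro G hG hK
    refine ⟨rep G, Finset.mem_image.2 ⟨G, Finset.mem_filter.2 ⟨Finset.mem_univ _, hG, hK⟩, rfl⟩, ?_⟩
    obtain ⟨e⟩ := rep_iso G
    exact ⟨e.symm⟩
  · have hcard : (R ×ˢ (Finset.univ : Finset (Equiv.Perm (Fin n)))).card
        = R.card * Nat.factorial n := by
      rw [Finset.card_product, Finset.card_univ, Fintype.card_perm, Fintype.card_fin]
    have hset : ({G | Q G} : Set (SimpleGraph (Fin n))).ncard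
        = (Finset.univ.filter fun G : SimpleGraph (Fin n) => Q G).card := by
      rw [← Set.ncard_coe_finset]
      congr 1
      ext G
      simp
    rw [← hcard, hset]
    refine Finset.card_le_mul_card_image_of_maps_to
      (f := fun p : SimpleGraph (Fin n) × Equiv.Perm (Fin n) => p.1.comap p.2) ?_ K ?_
    · rintro ⟨H, s⟩ hp
      have hH := (Finset.mem_product.1 hp).1
      obtain ⟨e⟩ := comap_iso H s
      exact Finset.mem_filter.2 ⟨Finset.mem_univ _, hQ _ _ ⟨e.symm⟩ (hR H hH).1⟩
    · intro B _
      rcases Finset.eq_empty_or_nonempty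
        ((R ×ˢ (Finset.univ : Finset (Equiv.Perm (Fin n)))).filter
          fun p => p.1.comap p.2 = B) with h0 | ⟨⟨H0, s0⟩, h0⟩
      · rw [h0]
        simp
      · obtain ⟨h0a, h0b⟩ := Finset.mem_filter.1 h0
        have hH0 := (Finset.mem_product.1 h0a).1
        have key : ∀ H s, (H, s) ∈ (R ×ˢ (Finset.univ : Finset (Equiv.Perm (Fin n)))).filter
            (fun p => p.1.comap p.2 = B) → H = H0 ∧ s * s0⁻¹ ∈ aut H0 := by
          intro H s hs
          obtain ⟨ha, hb⟩ := Finset.mem_filter.1 hs
          have hH := (Finset.mem_product.1 ha).1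
          have hb' : H.comap s = B := hb
          have h0b' : H0.comap s0 = B := h0b
          have hHH : H = H0 := by
            rw [← (hR H hH).2.2, ← (hR H0 hH0).2.2]
            refine (rep_eq (comap_iso H s)).symm.trans ?_
            rw [hb', ← h0b']
            exact rep_eq (comap_iso H0 s0)
          refine ⟨hHH, ?_⟩
          subst hHH
          intro u v
          have h1 : (H.comap s).Adj (s0⁻¹ u) (s0⁻¹ v) ↔ (H.comap s0).Adj (s0⁻¹ u) (s0⁻¹ v) := by
            rw [hb', h0b']
          have h2 : ∀ x, s0 (s0⁻¹ x) = x := fun x => s0.apply_symm_apply x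
          simp only [SimpleGraph.comap_adj, h2] at h1
          exact h1
        have hK := (hR H0 hH0).2.1
        refine le_trans ?_ hK
        rw [Nat.card_eq_fintype_card, ← Finset.card_univ]
        refine Finset.card_le_card_of_injOn
          (fun p => if h : p.2 * s0⁻¹ ∈ aut H0 then ⟨p.2 * s0⁻¹, h⟩ else 1) ?_ ?_
        · intro p _
          exact Finset.mem_coe.2 (Finset.mem_univ _)
        · rintro ⟨H, s⟩ hs ⟨H', s'⟩ hs' heq
          obtain ⟨h1, h2⟩ := key H s hs
          obtain ⟨h1', h2'⟩ := key H' s' hs'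
          simp only [h2, h2', dif_pos] at heq
          have h3 := congrArg Subtype.val heq
          have h4 : s = s' := mul_right_cancel h3
          rw [h1, h1', h4]

end Pool.Agent.W706.ST.Reps
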